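import Pool.Agent.Helper25.LS.Defs

/-!
# LS-RD: reduction of the trace formula to operators without nonzero eigenvalues
-/

set_option autoImplicit false

open Filter Topology Module

noncomputable section

namespace Pool.Agent.Helper11.LS

open Pool.Agent.Helper25.LS

/-- interleaving of two sequences -/
def inter {α : Type} (a b : ℕ → α) (n : ℕ) : α := if n % 2 = 0 then a (n / 2) else b (n / 2)

lemma inter_even {α : Type} (a b : ℕ → α) (k : ℕ) : inter a b (2 * k) = a k := by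
  unfold inter
  have h1 : 2 * k % 2 = 0 := by omega
  have h2 : 2 * k / 2 = k := by omega
  rw [if_pos h1, h2]

lemma inter_odd {α : Type} (a b : ℕ → α) (k : ℕ) : inter a b (2 * k + 1) = b k := by
  unfold inter
  have h1 : ¬ (2 * k + 1) % 2 = 0 := by omega
  have h2 : (2 * k + 1) / 2 = k := by omega
  rw [if_neg h1, h2]

/-- sums along an interleaved pair of sequences -/
lemma inter_tsum {α β V : Type} [NormedAddCommGroup V] (B : α → β → V) (a c : ℕ → α)
    (b d : ℕ → β) (h1 : Summable (fun k => B (a k) (b k))) (h2 : Summable (fun k => B (c k) (d k))) :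
    Summable (fun n => B (inter a c n) (inter b d n)) ∧
    ∑' n, B (inter a c n) (inter b d n) = ∑' k, B (a k) (b k) + ∑' k, B (c k) (d k) := by
  have hev : HasSum (fun k => B (inter a c (2 * k)) (inter b d (2 * k))) (∑' k, B (a k) (b k)) := by
    simp only [inter_even]
    exact h1.hasSum
  have hod : HasSum (fun k => B (inter a c (2 * k + 1)) (inter b d (2 * k + 1)))
      (∑' k, B (c k) (d k)) := by
    simp only [inter_odd]
    exact h2.hasSum
  have h := HasSum.even_add_odd (f := fun n => B (inter a c n) (inter b d n)) hev hod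
  exact ⟨h.summable, h.tsum_eq⟩

section
variable {X : Type} [NormedAddCommGroup X] [NormedSpace ℂ X]

lemma sum_apply [CompleteSpace X] (f : ℕ → X →L[ℂ] ℂ) (x : ℕ → X)
    (hs : Summable (fun i => ‖f i‖ * ‖x i‖)) (v : X) : Summable (fun i => f i v • x i) := by
  refine Summable.of_norm_bounded (hs.mul_right ‖v‖) (fun i => ?_)
  rw [norm_smul]
  have := (f i).le_opNorm v
  calc ‖f i v‖ * ‖x i‖ ≤ (‖f i‖ * ‖v‖) * ‖x i‖ :=
        mul_le_mul_of_nonneg_right this (norm_nonneg _)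
    _ = ‖f i‖ * ‖x i‖ * ‖v‖ := by ring

lemma sum_diag (f : ℕ → X →L[ℂ] ℂ) (x : ℕ → X)
    (hs : Summable (fun i => ‖f i‖ * ‖x i‖)) : Summable (fun i => f i (x i)) :=
  Summable.of_norm_bounded hs (fun i => (f i).le_opNorm (x i))

lemma sum_corr (lam : ℕ → ℂ) (e : ℕ → X) (es : ℕ → X →L[ℂ] ℂ)
    (hl : Summable (fun k => ‖lam k‖)) (he : ∀ k, ‖e k‖ ≤ 1) (hes : ∀ k, ‖es k‖ ≤ 2) :
    Summable (fun k => ‖(-(lam k)) • es k‖ * ‖e k‖) := by
  refine Summable.of_nonneg_of_le (fun k => by positivity) (fun k => ?_) (hl.mul_left 2)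
  rw [norm_smul, norm_neg]
  have a1 : ‖lam k‖ * ‖es k‖ ≤ ‖lam k‖ * 2 :=
    mul_le_mul_of_nonneg_left (hes k) (norm_nonneg _)
  have a2 : ‖lam k‖ * ‖es k‖ * ‖e k‖ ≤ (‖lam k‖ * 2) * 1 :=
    mul_le_mul a1 (he k) (norm_nonneg _) (by positivity)
  linarith

lemma corr_apply [CompleteSpace X] (f : ℕ → X →L[ℂ] ℂ) (x : ℕ → X)
    (hs : Summable (fun i => ‖f i‖ * ‖x i‖)) (lam : ℕ → ℂ) (e : ℕ → X) (es : ℕ → X →L[ℂ] ℂ)
    (hl : Summable (fun k => ‖lam k‖)) (he : ∀ k, ‖e k‖ ≤ 1) (hes : ∀ k, ‖es k‖ ≤ 2) (v : X) :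
    ∑' n, inter f (fun k => (-(lam k)) • es k) n v • inter x e n =
      ∑' i, f i v • x i - ∑' k, (lam k * es k v) • e k := by
  have h := (inter_tsum (fun (g : X →L[ℂ] ℂ) (y : X) => g v • y) f
    (fun k => (-(lam k)) • es k) x e (sum_apply f x hs v)
    (sum_apply _ _ (sum_corr lam e es hl he hes) v)).2
  have h2 : ∑' k, ((-(lam k)) • es k) v • e k = - ∑' k, (lam k * es k v) • e k := by
    rw [← tsum_neg]
    refine tsum_congr (fun k => ?_)
    rw [_root_.smul_apply, smul_eq_mul, neg_mul, neg_smul]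
  rw [h2] at h
  rw [sub_eq_add_neg]
  exact h

lemma corr_diag (f : ℕ → X →L[ℂ] ℂ) (x : ℕ → X)
    (hs : Summable (fun i => ‖f i‖ * ‖x i‖)) (lam : ℕ → ℂ) (e : ℕ → X) (es : ℕ → X →L[ℂ] ℂ)
    (hl : Summable (fun k => ‖lam k‖)) (he : ∀ k, ‖e k‖ ≤ 1) (hes : ∀ k, ‖es k‖ ≤ 2)
    (hd : ∀ k, lam k * es k (e k) = lam k) :
    ∑' n, inter f (fun k => (-(lam k)) • es k) n (inter x e n) =
      ∑' i, f i (x i) - ∑' k, lam k := by
  have h := (inter_tsum (fun (g : X →L[ℂ] ℂ) (y : X) => g y) f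
    (fun k => (-(lam k)) • es k) x e (sum_diag f x hs)
    (sum_diag _ _ (sum_corr lam e es hl he hes))).2
  have h2 : ∑' k, ((-(lam k)) • es k) (e k) = - ∑' k, lam k := by
    rw [← tsum_neg]
    refine tsum_congr (fun k => ?_)
    rw [_root_.smul_apply, smul_eq_mul, neg_mul, hd k]
  rw [h2] at h
  rw [sub_eq_add_neg]
  exact h

lemma corr_summable (f : ℕ → X →L[ℂ] ℂ) (x : ℕ → X)
    (hs : Summable (fun i => ‖f i‖ * ‖x i‖)) (lam : ℕ → ℂ) (e : ℕ → X) (es : ℕ → X →L[ℂ] ℂ)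
    (hl : Summable (fun k => ‖lam k‖)) (he : ∀ k, ‖e k‖ ≤ 1) (hes : ∀ k, ‖es k‖ ≤ 2) :
    Summable (fun n => ‖inter f (fun k => (-(lam k)) • es k) n‖ * ‖inter x e n‖) :=
  (inter_tsum (fun (g : X →L[ℂ] ℂ) (y : X) => ‖g‖ * ‖y‖) f
    (fun k => (-(lam k)) • es k) x e hs (sum_corr lam e es hl he hes)).1

lemma flag_diag (T : X →L[ℂ] X) (F : Flag X T) (e : ℕ → X) (es : ℕ → X →L[ℂ] ℂ)
    (hone : ∀ k, F.w k ≠ 0 → es k (e k) = 1) (k : ℕ) :
    F.lam k * es k (e k) = F.lam k := by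
  by_cases hw : F.w k = 0
  · have := (F.ind k (by rw [hw]; exact Submodule.zero_mem _)).2
    rw [this, zero_mul]
  · rw [hone k hw, mul_one]

end

theorem rd (h1 : S_NU) (h2 : S_RZ) (h3 : S_FL) (h4 : S_BI) (h5 : S_NE) : S_RD := by
  intro X _ _ _ f x T hs hT hsum
  have hc : IsCompactOperator T := by
    obtain ⟨T0, h0, _, hc⟩ := h1 X f x hs
    have : T = T0 := by
      ext v
      rw [hT v, h0 v]
    rw [this]; exact hc
  obtain ⟨F, hF1, hF2⟩ := h3 X T (fun μ hμ => (h2 X T hc μ hμ).1) hsum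
  obtain ⟨e, es, he, hes, hspan, hlow, hred, hone⟩ := h4 X T F
  refine ⟨inter f (fun k => (-(F.lam k)) • es k), inter x e,
    corr_summable f x hs F.lam e es hF1 he hes, ?_, ?_⟩
  · intro T' hT'
    refine h5 X T F e es T' hc hF1 he hes hspan hlow hred hone (fun v => ?_)
    rw [hT' v, corr_apply f x hs F.lam e es hF1 he hes v, hT v]
  · rw [corr_diag f x hs F.lam e es hF1 he hes (flag_diag T F e es hone), hF2]

end Pool.Agent.Helper11.LS
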